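import Pool.Agent.Helper60.BFT.Goals
import Pool.Agent.Helper60.BFT.AvBasic

/-!
# BLK: the means of the block statistics
-/

set_option autoImplicit false

open Finset Filter Topology MeasureTheory ProbabilityTheory
open Pool.Agent.Helper90.Twin (Ps Gz)

namespace Pool.Agent.Helper12.BFT

open Pool.Agent.Helper60.BFT

/-! ### Subsequences -/

theorem run_sub (s Y : ℕ → ℝ) (i0 : ℕ) (h0 : i0 < 6) (hY : ∀ i, i % 6 ≠ i0 → Y i = 0) (n : ℕ) :
    run s Y n = run (fun t => s (i0 + 6 * t)) (fun t => Y (i0 + 6 * t)) ((n + 5 - i0) / 6) := by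
  induction n with
  | zero =>
    have : (0 + 5 - i0) / 6 = 0 := by omega
    rw [this]
    rfl
  | succ n ih =>
    by_cases hn : n % 6 = i0
    · have h1 : (n + 1 + 5 - i0) / 6 = (n + 5 - i0) / 6 + 1 := by omega
      have h2 : i0 + 6 * ((n + 5 - i0) / 6) = n := by omega
      rw [h1]
      simp only [run]
      rw [← ih, h2]
    · have h1 : (n + 1 + 5 - i0) / 6 = (n + 5 - i0) / 6 := by omega
      rw [h1, ← ih]
      simp only [run]
      rw [hY n hn]
      simp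

theorem sum_sub (F : ℕ → ℝ) (i0 : ℕ) (h0 : i0 < 6) (hY : ∀ i, i % 6 ≠ i0 → F i = 0) (n : ℕ) :
    ∑ i ∈ range n, F i = ∑ t ∈ range ((n + 5 - i0) / 6), F (i0 + 6 * t) := by
  induction n with
  | zero =>
    have : (0 + 5 - i0) / 6 = 0 := by omega
    rw [this]
    rfl
  | succ n ih =>
    rw [Finset.sum_range_succ, ih]
    by_cases hn : n % 6 = i0
    · have h1 : (n + 1 + 5 - i0) / 6 = (n + 5 - i0) / 6 + 1 := by omega
      have h2 : i0 + 6 * ((n + 5 - i0) / 6) = n := by omega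
      rw [h1, Finset.sum_range_succ, h2]
    · have h1 : (n + 1 + 5 - i0) / 6 = (n + 5 - i0) / 6 := by omega
      rw [h1, hY n hn, add_zero]

theorem run_sign (c : ℝ) (hc : c * c = 1) (s Y : ℕ → ℝ) (n : ℕ) :
    (run (fun t => c * s t) Y n).1 = (run s Y n).1 ∧
      (run (fun t => c * s t) Y n).2 = c * (run s Y n).2 := by
  induction n with
  | zero => simp [run]
  | succ n ih =>
    simp only [run]
    rw [ih.1, ih.2]
    constructor
    · linear_combination (Y n * s n * (run s Y n).2) * hc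
    · ring

theorem chi_shift {n : ℕ} (hn : n % 2 = 1) (t : ℕ) : chi (n + 6 * t) = chi n * (-1) ^ t := by
  induction t with
  | zero => simp
  | succ t ih =>
    have h1 : chi (n + 6 * (t + 1)) = - chi (n + 6 * t) := by
      unfold chi
      have h2 : (n + 6 * t) % 4 = 1 ∨ (n + 6 * t) % 4 = 3 := by omega
      rcases h2 with h | h
      · rw [if_neg (by omega), if_pos h]
      · rw [if_pos (by omega), if_neg (by omega)]
        norm_num
    rw [h1, ih, pow_succ]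
    ring

theorem chi_sq (n : ℕ) : chi n * chi n = 1 := by
  unfold chi
  split_ifs <;> norm_num

theorem abs_chi (n : ℕ) : |chi n| = 1 := by
  unfold chi
  split_ifs <;> norm_num

/-! ### The averages -/

/-- `F` depends on the residues only -/
def Modf (F : (ℕ → ℕ) → ℝ) : Prop :=
  ∀ A A' : ℕ → ℕ, (∀ p, A p ≡ A' p [MOD p]) → F A = F A'

theorem Av_mod {F : (ℕ → ℕ) → ℝ} (hF : Modf F) (L : List ℕ) : Modf (fun A => Av L F A) := by
  induction L with
  | nil => exact hF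
  | cons q L ih =>
    intro A A' h
    show Av (q :: L) F A = Av (q :: L) F A'
    rw [Av_cons, Av_cons]
    congr 1
    apply Finset.sum_congr rfl
    intro c _
    apply ih
    intro p
    by_cases hp : p = q
    · subst hp
      rw [Function.update_self, Function.update_self]
    · rw [Function.update_of_ne hp, Function.update_of_ne hp]
      exact h p

theorem sum_shift (q ns : ℕ) (hq : 0 < q) (g : ℕ → ℝ) (hg : ∀ x y, x ≡ y [MOD q] → g x = g y) :
    ∑ c ∈ range q, g (ns + (q - c % q)) = ∑ c ∈ range q, g c := by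
  have hmaps : Set.MapsTo (fun c => (ns + (q - c % q)) % q) (range q : Set ℕ)
      (range q : Set ℕ) := by
    intro c _
    simp only [coe_range, Set.mem_Iio]
    exact Nat.mod_lt _ hq
  have hinj : Set.InjOn (fun c => (ns + (q - c % q)) % q) (range q : Set ℕ) := by
    intro c hc c' hc' h
    simp only [coe_range, Set.mem_Iio] at hc hc'
    simp only at h
    rw [Nat.mod_eq_of_lt hc, Nat.mod_eq_of_lt hc'] at h
    have h1 : ns + (q - c) ≡ ns + (q - c') [MOD q] := h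
    have h2 := Nat.ModEq.add_left_cancel' ns h1
    have h3 := (Nat.modEq_iff_dvd.1 h2)
    have h4 : (((q - c' : ℕ) : ℤ) - ((q - c : ℕ) : ℤ)) = (c : ℤ) - c' := by
      push_cast [Nat.cast_sub hc.le, Nat.cast_sub hc'.le]
      ring
    rw [h4] at h3
    have h5 : (c : ℤ) - c' = 0 := by
      apply Int.eq_zero_of_abs_lt_dvd h3
      rw [abs_lt]
      constructor <;> omega
    omega
  refine Finset.sum_nbij (fun c => (ns + (q - c % q)) % q) (fun c hc => hmaps hc) hinj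
    (Finset.surjOn_of_injOn_of_card_le _ hmaps hinj le_rfl) ?_
  intro c _
  apply hg
  exact (Nat.mod_modEq _ _).symm

theorem Av_shift {F : (ℕ → ℕ) → ℝ} (hF : Modf F) (ns : ℕ) (τ : (ℕ → ℕ) → ℕ → ℕ)
    (L : List ℕ) (hpos : ∀ q ∈ L, 0 < q)
    (hτ : ∀ q ∈ L, ∀ (b : ℕ → ℕ) (c : ℕ),
      τ (Function.update b q c) = Function.update (τ b) q (ns + (q - c % q))) (a : ℕ → ℕ) :
    Av L (fun b => F (τ b)) a = Av L F (τ a) := by
  induction L generalizing a with
  | nil => rfl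
  | cons q L ih =>
    rw [Av_cons, Av_cons]
    congr 1
    have h1 : ∀ c ∈ range q, Av L (fun b => F (τ b)) (Function.update a q c) =
        Av L F (Function.update (τ a) q (ns + (q - c % q))) := by
      intro c _
      rw [ih (fun p hp => hpos p (List.mem_cons_of_mem _ hp))
        (fun p hp => hτ p (List.mem_cons_of_mem _ hp)), hτ q (by simp)]
    rw [Finset.sum_congr rfl h1]
    refine sum_shift q ns (hpos q (by simp)) (fun x => Av L F (Function.update (τ a) q x)) ?_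
    intro x y hxy
    refine Av_mod hF L _ _ ?_
    intro p
    by_cases hp : p = q
    · subst hp
      rw [Function.update_self, Function.update_self]
      exact hxy
    · rw [Function.update_of_ne hp, Function.update_of_ne hp]

theorem bad_mod {A A' : ℕ → ℕ} {p : ℕ} (h : A p ≡ A' p [MOD p]) (t : ℕ) :
    bad A p t ↔ bad A' p t := by
  unfold bad
  have h1 : (p ∣ 6 * t + A p) ↔ (p ∣ 6 * t + A' p) := by
    rw [← Nat.modEq_zero_iff_dvd, ← Nat.modEq_zero_iff_dvd]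
    have := Nat.ModEq.add_left (6 * t) h
    exact ⟨fun h' => this.symm.trans h', fun h' => this.trans h'⟩
  have h2 : (p ∣ 6 * t + A p + 2) ↔ (p ∣ 6 * t + A' p + 2) := by
    rw [← Nat.modEq_zero_iff_dvd, ← Nat.modEq_zero_iff_dvd]
    have := Nat.ModEq.add_right 2 (Nat.ModEq.add_left (6 * t) h)
    exact ⟨fun h' => this.symm.trans h', fun h' => this.trans h'⟩
  rw [h1, h2]

theorem XA_mod (Z : ℕ) {A A' : ℕ → ℕ} (h : ∀ p, A p ≡ A' p [MOD p]) : XA Z A = XA Z A' := by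
  funext t
  unfold XA Helper90.Twin.XX
  apply Finset.prod_congr rfl
  intro p _
  unfold yA
  by_cases hb : bad A p t
  · rw [if_pos hb, if_pos ((bad_mod (h p) t).1 hb)]
  · rw [if_neg hb, if_neg (fun h' => hb ((bad_mod (h p) t).2 h'))]

/-! ### The set in the block -/

/-- the class of the prime `p` -/
def cl (β : ℕ → ℕ → (ℕ → ℕ) → ℕ) (r : ℕ) (a b : ℕ → ℕ) (p : ℕ) : ℕ :=
  if p ≤ r then β r p a else b p

/-- the shifts -/
def tau (β : ℕ → ℕ → (ℕ → ℕ) → ℕ) (r ns : ℕ) (a b : ℕ → ℕ) (p : ℕ) : ℕ :=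
  ns + (p - cl β r a b p % p)

theorem tau_update (β : ℕ → ℕ → (ℕ → ℕ) → ℕ) (r ns : ℕ) (a b : ℕ → ℕ) {q : ℕ} (hq : r < q)
    (c : ℕ) : tau β r ns a (Function.update b q c) =
      Function.update (tau β r ns a b) q (ns + (q - c % q)) := by
  funext p
  by_cases hp : p = q
  · subst hp
    rw [Function.update_self]
    unfold tau cl
    rw [if_neg (by omega), Function.update_self]
  · rw [Function.update_of_ne hp]
    unfold tau cl
    rw [Function.update_of_ne hp]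

theorem dvd_tau {p : ℕ} (hp : 0 < p) (ns m c : ℕ) :
    p ∣ m + (ns + (p - c % p)) ↔ ns + m ≡ c [MOD p] := by
  have h1 : c % p < p := Nat.mod_lt _ hp
  have h2 : m + (ns + (p - c % p)) + c % p = ns + m + p := by omega
  constructor
  · intro h
    have h3 : m + (ns + (p - c % p)) + c % p ≡ 0 + c % p [MOD p] :=
      Nat.ModEq.add_right _ (Nat.modEq_zero_iff_dvd.2 h)
    rw [h2, zero_add] at h3
    have h4 : ns + m + p ≡ ns + m [MOD p] := by
      have : p ≡ 0 [MOD p] := Nat.modEq_zero_iff_dvd.2 dvd_rfl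
      simp
    exact (h4.symm.trans h3).trans (Nat.mod_modEq c p)
  · intro h
    have h3 : m + (ns + (p - c % p)) + c % p ≡ 0 + c % p [MOD p] := by
      rw [h2, zero_add]
      have h4 : ns + m + p ≡ ns + m [MOD p] := by
        have : p ≡ 0 [MOD p] := Nat.modEq_zero_iff_dvd.2 dvd_rfl
        simp
      exact (h4.trans h).trans (Nat.mod_modEq c p).symm
    exact Nat.modEq_zero_iff_dvd.1 (Nat.ModEq.add_right_cancel' _ h3)

theorem bad_tau (β : ℕ → ℕ → (ℕ → ℕ) → ℕ) (r ns : ℕ) (a b : ℕ → ℕ) {p : ℕ} (hp : 0 < p)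
    (t : ℕ) : bad (tau β r ns a b) p t ↔
      (ns + 6 * t ≡ cl β r a b p [MOD p] ∨ ns + 6 * t + 2 ≡ cl β r a b p [MOD p]) := by
  unfold bad tau
  have h1 : 6 * t + (ns + (p - cl β r a b p % p)) + 2 =
      6 * t + 2 + (ns + (p - cl β r a b p % p)) := by omega
  rw [h1, dvd_tau hp, dvd_tau hp, show ns + (6 * t + 2) = ns + 6 * t + 2 by omega]

/-- the residue class modulo `6` -/
def n0 (c3 : ℕ) : ℕ := (3 + 4 * (c3 + 2)) % 6

theorem mod_six {n c3 : ℕ} (hn : n % 2 = 1) :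
    (¬ n ≡ c3 [MOD 3] ∧ ¬ n + 2 ≡ c3 [MOD 3]) ↔ n % 6 = n0 c3 := by
  unfold n0 Nat.ModEq
  have h1 : n % 6 = 1 ∨ n % 6 = 3 ∨ n % 6 = 5 := by omega
  have h2 : c3 % 6 = 0 ∨ c3 % 6 = 1 ∨ c3 % 6 = 2 ∨ c3 % 6 = 3 ∨ c3 % 6 = 4 ∨ c3 % 6 = 5 := by
    omega
  rcases h1 with h1 | h1 | h1 <;> rcases h2 with h2 | h2 | h2 | h2 | h2 | h2 <;> omega

theorem YF_eq_zero (K : ℕ) (Z : ℕ → ℕ) (β : ℕ → ℕ → (ℕ → ℕ) → ℕ) (r : ℕ) (a b : ℕ → ℕ)
    (hr : 3 ≤ r) (hZ : r ≤ Z (r ^ K)) (hab : β r 3 b = β r 3 a) (n : ℕ)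
    (hn : n % 6 ≠ n0 (β r 3 a)) : YF K Z β r b n = 0 := by
  unfold YF
  rw [if_neg]
  rintro ⟨h1, h2⟩
  have h3 := h2 3 Nat.prime_three le_rfl (hr.trans hZ)
  rw [if_pos hr, hab] at h3
  exact hn ((mod_six h1).1 h3)

theorem YF_eq (K : ℕ) (Z : ℕ → ℕ) (β : ℕ → ℕ → (ℕ → ℕ) → ℕ) (r : ℕ) (a b : ℕ → ℕ)
    (hr : 3 ≤ r) (hab : ∀ p ≤ r, β r p b = β r p a) (ns t : ℕ)
    (hn : ns % 6 = n0 (β r 3 a)) : YF K Z β r b (ns + 6 * t) =
      XA (Z (r ^ K)) (tau β r ns a b) t := by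
  have hodd : (ns + 6 * t) % 2 = 1 := by
    unfold n0 at hn
    omega
  have h6 : (ns + 6 * t) % 6 = n0 (β r 3 a) := by omega
  have hcl : ∀ p, (if p ≤ r then β r p b else b p) = cl β r a b p := by
    intro p
    unfold cl
    split_ifs with h
    · exact hab p h
    · rfl
  unfold YF XA Helper90.Twin.XX
  by_cases h : ∀ p ∈ Ps (Z (r ^ K)), ¬ bad (tau β r ns a b) p t
  · rw [if_pos, Finset.prod_eq_one]
    · intro p hp
      unfold yA
      rw [if_neg (h p hp), sub_zero]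
    · refine ⟨hodd, ?_⟩
      intro p hp h3 hpZ
      rw [hcl p]
      by_cases hp3 : p = 3
      · subst hp3
        have : cl β r a b 3 = β r 3 a := by
          unfold cl
          rw [if_pos hr]
        rw [this]
        exact (mod_six hodd).2 h6
      · have h5 : 5 ≤ p := by
          by_contra h5
          have : p = 4 := by omega
          subst this
          exact absurd hp (by norm_num)
        have h7 := h p (Helper90.Twin.mem_Ps.2 ⟨h5, hpZ, hp⟩)
        rw [bad_tau β r ns a b hp.pos, not_or] at h7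
        exact h7
  · have h' : ∃ p ∈ Ps (Z (r ^ K)), bad (tau β r ns a b) p t := by
      by_contra hcon
      exact h fun p hp hb => hcon ⟨p, hp, hb⟩
    obtain ⟨p, hp, hb⟩ := h'
    rw [if_neg, Finset.prod_eq_zero hp]
    · unfold yA
      rw [if_pos hb, sub_self]
    · rintro ⟨_, h2⟩
      have hp' := Helper90.Twin.mem_Ps.1 hp
      have h7 := h2 p hp'.2.2 (by omega) hp'.2.1
      rw [hcl p] at h7
      rw [bad_tau β r ns a b hp'.2.2.pos] at hb
      rcases hb with hb | hb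
      · exact h7.1 hb
      · exact h7.2 hb

/-- the first index -/
def i0 (K r c3 : ℕ) : ℕ := (n0 c3 + 5 * r ^ K) % 6

theorem i0_lt (K r c3 : ℕ) : i0 K r c3 < 6 := Nat.mod_lt _ (by norm_num)

theorem i0_mod (K r c3 i : ℕ) : (r ^ K + i) % 6 = n0 c3 ↔ i % 6 = i0 K r c3 := by
  unfold i0
  have : n0 c3 < 6 := Nat.mod_lt _ (by norm_num)
  omega

theorem T0_eq (K : ℕ) (Z : ℕ → ℕ) (β : ℕ → ℕ → (ℕ → ℕ) → ℕ) (r : ℕ) (a b : ℕ → ℕ)
    (hr : 3 ≤ r) (hZ : r ≤ Z (r ^ K)) (hab : ∀ p ≤ r, β r p b = β r p a) :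
    T0 K Z β r b = B0 (XA (Z (r ^ K)) (tau β r (r ^ K + i0 K r (β r 3 a)) a b))
      ((len K r + 5 - i0 K r (β r 3 a)) / 6) := by
  unfold T0 B0
  rw [sum_sub _ (i0 K r (β r 3 a)) (i0_lt _ _ _)]
  · apply Finset.sum_congr rfl
    intro t _
    rw [← YF_eq K Z β r a b hr hab _ t, ← add_assoc]
    rw [i0_mod]
    exact Nat.mod_eq_of_lt (i0_lt _ _ _)
  · intro i hi
    apply YF_eq_zero K Z β r a b hr hZ (hab 3 hr)
    rw [Ne, i0_mod]
    exact hi

theorem T1_eq (K : ℕ) (Z : ℕ → ℕ) (β : ℕ → ℕ → (ℕ → ℕ) → ℕ) (r : ℕ) (a b : ℕ → ℕ)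
    (hr : 3 ≤ r) (hZ : r ≤ Z (r ^ K)) (hab : ∀ p ≤ r, β r p b = β r p a) :
    T1 K Z β r b = chi (r ^ K + i0 K r (β r 3 a)) *
      B1 (XA (Z (r ^ K)) (tau β r (r ^ K + i0 K r (β r 3 a)) a b))
      ((len K r + 5 - i0 K r (β r 3 a)) / 6) := by
  have h6 : (r ^ K + i0 K r (β r 3 a)) % 6 = n0 (β r 3 a) := by
    rw [i0_mod]
    exact Nat.mod_eq_of_lt (i0_lt _ _ _)
  have hodd : (r ^ K + i0 K r (β r 3 a)) % 2 = 1 := by
    unfold n0 at h6
    omega
  unfold T1 B1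
  rw [sum_sub _ (i0 K r (β r 3 a)) (i0_lt _ _ _), Finset.mul_sum]
  · apply Finset.sum_congr rfl
    intro t _
    rw [← YF_eq K Z β r a b hr hab _ t h6, ← add_assoc, chi_shift hodd]
    ring
  · intro i hi
    rw [YF_eq_zero K Z β r a b hr hZ (hab 3 hr), mul_zero]
    rw [Ne, i0_mod]
    exact hi

theorem T2_eq (K : ℕ) (Z : ℕ → ℕ) (β : ℕ → ℕ → (ℕ → ℕ) → ℕ) (r : ℕ) (a b : ℕ → ℕ)
    (hr : 3 ≤ r) (hZ : r ≤ Z (r ^ K)) (hab : ∀ p ≤ r, β r p b = β r p a) :
    T2 K Z β r b =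
      B2 (XA (Z (r ^ K)) (tau β r (r ^ K + i0 K r (β r 3 a)) a b))
      ((len K r + 5 - i0 K r (β r 3 a)) / 6) := by
  have h6 : (r ^ K + i0 K r (β r 3 a)) % 6 = n0 (β r 3 a) := by
    rw [i0_mod]
    exact Nat.mod_eq_of_lt (i0_lt _ _ _)
  have hodd : (r ^ K + i0 K r (β r 3 a)) % 2 = 1 := by
    unfold n0 at h6
    omega
  unfold T2 B2
  rw [run_sub _ _ (i0 K r (β r 3 a)) (i0_lt _ _ _)]
  · have e1 : (fun t => YF K Z β r b (r ^ K + (i0 K r (β r 3 a) + 6 * t))) =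
        XA (Z (r ^ K)) (tau β r (r ^ K + i0 K r (β r 3 a)) a b) := by
      funext t
      rw [← YF_eq K Z β r a b hr hab _ t h6, ← add_assoc]
    have e2 : (fun t => chi (r ^ K + (i0 K r (β r 3 a) + 6 * t))) =
        fun t => chi (r ^ K + i0 K r (β r 3 a)) * (-1 : ℝ) ^ t := by
      funext t
      rw [← add_assoc, chi_shift hodd]
    rw [e1, e2]
    exact (run_sign _ (chi_sq _) _ _ _).1
  · intro i hi
    apply YF_eq_zero K Z β r a b hr hZ (hab 3 hr)
    rw [Ne, i0_mod]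
    exact hi

theorem EE_eq (K : ℕ) (Z : ℕ → ℕ) (β : ℕ → ℕ → (ℕ → ℕ) → ℕ) (hβ : Adapted β) (r : ℕ)
    (a : ℕ → ℕ) (T : (ℕ → ℕ) → ℝ) (F : (ℕ → ℕ) → ℝ) (hF : Modf F) (ns : ℕ)
    (hT : ∀ b, (∀ p ≤ r, β r p b = β r p a) → T b = F (tau β r ns a b)) :
    EE K Z T r a = Av (lg r (Z (r ^ K))) F (tau β r ns a a) := by
  unfold EE
  rw [← Av_shift hF ns (tau β r ns a) (lg r (Z (r ^ K))) lg_pos]
  · apply Av_congr
    intro b hb
    apply hT
    intro p hp
    apply hβ r p hp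
    intro q hq
    apply hb
    intro hq'
    have := (mem_lg.1 hq').2.2.2
    omega
  · intro q hq b c
    exact tau_update β r ns a b (mem_lg.1 hq).2.2.2 c

theorem len_ge {K r : ℕ} (hK : 1 ≤ K) : r ^ (K - 1) ≤ len K r := by
  unfold len
  obtain ⟨k, rfl⟩ : ∃ k, K = k + 1 := ⟨K - 1, by omega⟩
  have h1 : r ^ k ≤ (r + 1) ^ k := Nat.pow_le_pow_left (by omega) k
  have h2 : (r + 1) ^ (k + 1) = (r + 1) ^ k * r + (r + 1) ^ k := by ring
  have h3 : r ^ (k + 1) = r ^ k * r := by ring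
  have h4 : r ^ k * r ≤ (r + 1) ^ k * r := Nat.mul_le_mul_right _ h1
  rw [h2, h3]
  simp only [Nat.add_sub_cancel]
  omega

theorem blk (hcore : COREG) : BLKG := by
  intro ε hε k
  obtain ⟨K0, hK0⟩ := hcore (ε / 4) (by positivity)
  refine ⟨max K0 (k + 2), fun K hK Z hZ => ?_⟩
  have hKK0 : K0 ≤ K := (le_max_left _ _).trans hK
  have hKk : k + 2 ≤ K := (le_max_right _ _).trans hK
  have htend : Tendsto (fun r : ℕ => r ^ K) atTop atTop := tendsto_pow_atTop (by omega)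
  have hbig : ∀ᶠ r : ℕ in atTop, 8 / ε + 2 ≤ (r : ℝ) :=
    tendsto_natCast_atTop_atTop.eventually_ge_atTop _
  filter_upwards [hK0 K hKK0, htend.eventually hZ.low, eventually_ge_atTop 6, hbig]
    with r hr hlow hr6 hrbig
  intro β hβ a
  -- the cutoff
  have hZle : Z (r ^ K) ≤ r ^ K := hZ.le _
  have hrZ : r ≤ Z (r ^ K) := by
    by_contra hlt
    rw [not_le] at hlt
    have h1 : Z (r ^ K) ^ k ≤ r ^ k := Nat.pow_le_pow_left hlt.le k
    have h2 : r ^ k < r ^ K := Nat.pow_lt_pow_right (by omega) (by omega)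
    omega
  set c3 := β r 3 a with hc3
  set ii := i0 K r c3 with hii
  have hii6 : ii < 6 := i0_lt _ _ _
  set N := (len K r + 5 - ii) / 6 with hN
  have hlen : r ^ (K - 1) ≤ len K r := len_ge (by omega)
  have hpow : r ^ (K - 1) = r ^ (K - 2) * r := by
    rw [← pow_succ]
    congr 1
    omega
  have hNge : r ^ (K - 2) ≤ N := by
    have h1 : r ^ (K - 2) * 6 ≤ r ^ (K - 1) := by
      rw [hpow]
      exact Nat.mul_le_mul_left _ hr6
    omega
  obtain ⟨c0, c1, c2⟩ := hr (Z (r ^ K)) hrZ hZle N hNge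
    (tau β r (r ^ K + ii) a a)
  have h3r : 3 ≤ r := by omega
  have E0 : EE K Z (T0 K Z β r) r a = Av (lg r (Z (r ^ K)))
      (fun A => B0 (XA (Z (r ^ K)) A) N) (tau β r (r ^ K + ii) a a) :=
    EE_eq K Z β hβ r a _ (fun A => B0 (XA (Z (r ^ K)) A) N)
      (fun A A' h => by simp only [XA_mod _ h]) _ (fun b hb => T0_eq K Z β r a b h3r hrZ hb)
  have E2 : EE K Z (T2 K Z β r) r a = Av (lg r (Z (r ^ K)))
      (fun A => B2 (XA (Z (r ^ K)) A) N) (tau β r (r ^ K + ii) a a) :=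
    EE_eq K Z β hβ r a _ (fun A => B2 (XA (Z (r ^ K)) A) N)
      (fun A A' h => by simp only [XA_mod _ h]) _ (fun b hb => T2_eq K Z β r a b h3r hrZ hb)
  have E1 : EE K Z (T1 K Z β r) r a = Av (lg r (Z (r ^ K)))
      (fun A => chi (r ^ K + ii) * B1 (XA (Z (r ^ K)) A) N) (tau β r (r ^ K + ii) a a) :=
    EE_eq K Z β hβ r a _ (fun A => chi (r ^ K + ii) * B1 (XA (Z (r ^ K)) A) N)
      (fun A A' h => by simp only [XA_mod _ h]) _ (fun b hb => T1_eq K Z β r a b h3r hrZ hb)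
  -- numerics
  have hG : 0 ≤ Gz (Z (r ^ K)) := by
    unfold Gz Helper90.Twin.GG
    exact Finset.prod_nonneg fun p hp => (Helper90.Twin.factor_pos hp).le
  have hNr : (N : ℝ) ≤ len K r / 6 + 1 ∧ (len K r : ℝ) / 6 - 1 ≤ N := by
    have h1 : 6 * N ≤ len K r + 5 := by omega
    have h2 : len K r ≤ 6 * N + 5 := by omega
    have h1' : (6 : ℝ) * N ≤ len K r + 5 := by exact_mod_cast h1
    have h2' : (len K r : ℝ) ≤ 6 * N + 5 := by exact_mod_cast h2
    constructor <;> linarith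
  have hlenr : 8 / ε + 2 ≤ (len K r : ℝ) := by
    refine hrbig.trans ?_
    have h1 : r ≤ r ^ (K - 1) := Nat.le_self_pow (by omega) r
    exact_mod_cast h1.trans hlen
  have hlen2 : 8 + 2 * ε ≤ ε * (len K r : ℝ) := by
    have := mul_le_mul_of_nonneg_left hlenr hε.le
    rw [mul_add, mul_div_cancel₀ _ hε.ne'] at this
    linarith
  have hmain : ε / 4 * (N * Gz (Z (r ^ K))) ≤ ε * mT K Z r := by
    unfold mT
    have h1 : ε / 4 * N ≤ ε * (len K r / 6) := by
      have h2 := mul_le_mul_of_nonneg_left hNr.1 (by positivity : (0 : ℝ) ≤ ε / 4)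
      have h3 : 0 ≤ ε * (len K r : ℝ) := by positivity
      nlinarith
    calc ε / 4 * (N * Gz (Z (r ^ K))) = ε / 4 * N * Gz (Z (r ^ K)) := by ring
      _ ≤ ε * (len K r / 6) * Gz (Z (r ^ K)) := mul_le_mul_of_nonneg_right h1 hG
      _ = ε * (len K r * Gz (Z (r ^ K)) / 6) := by ring
  refine ⟨?_, ?_, ?_⟩
  · rw [E0]
    have h1 : |(N : ℝ) * Gz (Z (r ^ K)) - mT K Z r| ≤ Gz (Z (r ^ K)) := by
      unfold mT
      have h2 : (N : ℝ) * Gz (Z (r ^ K)) - len K r * Gz (Z (r ^ K)) / 6 =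
          ((N : ℝ) - len K r / 6) * Gz (Z (r ^ K)) := by ring
      rw [h2, abs_mul, abs_of_nonneg hG]
      have h3 : |(N : ℝ) - len K r / 6| ≤ 1 := by
        rw [abs_le]
        constructor <;> linarith [hNr.1, hNr.2]
      calc |(N : ℝ) - len K r / 6| * Gz (Z (r ^ K)) ≤ 1 * Gz (Z (r ^ K)) :=
            mul_le_mul_of_nonneg_right h3 hG
        _ = _ := one_mul _
    have h2 : ε / 4 * (N * Gz (Z (r ^ K))) + Gz (Z (r ^ K)) ≤ ε * mT K Z r := by
      unfold mT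
      have h3 : ε / 4 * N + 1 ≤ ε * (len K r / 6) := by
        have h4 := mul_le_mul_of_nonneg_left hNr.1 (by positivity : (0 : ℝ) ≤ ε / 4)
        nlinarith
      calc ε / 4 * (N * Gz (Z (r ^ K))) + Gz (Z (r ^ K))
          = (ε / 4 * N + 1) * Gz (Z (r ^ K)) := by ring
        _ ≤ ε * (len K r / 6) * Gz (Z (r ^ K)) := mul_le_mul_of_nonneg_right h3 hG
        _ = ε * (len K r * Gz (Z (r ^ K)) / 6) := by ring
    refine le_trans ?_ h2
    have h3 := abs_sub_le (Av (lg r (Z (r ^ K)))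
      (fun A => B0 (XA (Z (r ^ K)) A) N) (tau β r (r ^ K + ii) a a))
      ((N : ℝ) * Gz (Z (r ^ K))) (mT K Z r)
    linarith
  · rw [E1, Av_mul_left, abs_mul, abs_chi, one_mul]
    exact c1.trans hmain
  · rw [E2]
    exact c2.trans hmain

end Pool.Agent.Helper12.BFT
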